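import Mathlib

namespace Pool.Agent.H.MP_435399_an

open MeasureTheory Set Filter Topology Metric Complex Real

def An (a b : ℝ) : Set ℂ := {z | ‖z‖ ∈ Ioo a b}

lemma An_meas (a b : ℝ) : MeasurableSet (An a b) := measurable_norm measurableSet_Ioo

lemma polar {Φ : ℂ → ℂ} {a b : ℝ} (ha : 0 ≤ a) (hab : a ≤ b) (hΦ : IntegrableOn Φ (An a b)) :
    ∫ z in An a b, Φ z = ∫ s in a..b, (2 * π * s) • circleAverage Φ 0 s := by
  have h1 := (integrable_indicator_iff (An_meas a b)).2 hΦ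
  have h2 : IntegrableOn (fun p : ℝ × ℝ => p.1 • (An a b).indicator Φ (Complex.polarCoord.symm p))
      (Ioi 0 ×ˢ Ioo (-π) π) := by
    have := (integrableOn_image_iff_integrableOn_abs_det_fderiv_smul volume
      polarCoord.open_target.measurableSet
      (fun p _ => (hasFDerivAt_polarCoord_symm p).hasFDerivWithinAt) polarCoord.symm.injOn _).1
      ((volume_preserving_equiv_real_prod.symm.integrable_comp_emb
        measurableEquivRealProd.symm.measurableEmbedding).2 h1).integrableOn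
    refine this.congr_fun (fun p hp => ?_) polarCoord.open_target.measurableSet
    simp only [det_fderivPolarCoordSymm, abs_of_pos (show 0 < p.1 from hp.1)]
    rfl
  rw [← integral_indicator (An_meas a b), ← Complex.integral_comp_polarCoord_symm]
  refine (setIntegral_prod _ h2).trans ?_
  rw [intervalIntegral.integral_of_le hab, integral_Ioc_eq_integral_Ioo,
    ← inter_eq_right.2 (show Ioo a b ⊆ Ioi 0 from fun s hs => ha.trans_lt hs.1),
    ← setIntegral_indicator measurableSet_Ioo]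
  refine setIntegral_congr_fun measurableSet_Ioi fun s hs => ?_
  have n : ∀ θ, ‖Complex.polarCoord.symm (s, θ)‖ = s := fun θ =>
    (norm_polarCoord_symm _).trans (abs_of_pos hs)
  by_cases c : s ∈ Ioo a b
  · rw [indicator_of_mem c, circleAverage_eq_integral_add (-π),
      intervalIntegral.integral_comp_add_right fun θ => Φ (circleMap 0 s θ), smul_smul,
      intervalIntegral.integral_of_le (by linarith [pi_pos]), integral_Ioc_eq_integral_Ioo,
      ← integral_smul]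
    congr 1
    · congr 2 <;> ring
    · funext θ
      rw [indicator_of_mem (s := An a b) (show ‖_‖ ∈ Ioo a b by rwa [n])]
      congr 1
      · field_simp
      · simp [circleMap, exp_mul_I]
  · simp only [indicator_of_notMem c]
    refine (setIntegral_congr_fun measurableSet_Ioo (g := fun _ => 0) fun θ _ => ?_).trans (by simp)
    show s • _ = 0
    rw [indicator_of_notMem (s := An a b) (show ¬ ‖_‖ ∈ Ioo a b by rwa [n]), smul_zero]

lemma An_ae : (ball (0 : ℂ) 1 : Set ℂ) =ᵐ[volume] An 0 1 := by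
  filter_upwards [compl_mem_ae_iff.2 (measure_singleton (0 : ℂ))] with z hz
  have : z ≠ 0 := hz
  exact propext (show z ∈ ball (0 : ℂ) 1 ↔ ‖z‖ ∈ Ioo 0 1 by simp [this])

lemma icongr {f g : ℝ → ℂ} (c : ℝ) (h : ∀ s ∈ Ioo (0 : ℝ) 1, s ≠ c → f s = g s) :
    ∫ s in (0 : ℝ)..1, f s = ∫ s in (0 : ℝ)..1, g s := by
  refine intervalIntegral.integral_congr_ae ?_
  filter_upwards [compl_mem_ae_iff.2 (measure_singleton c),
    compl_mem_ae_iff.2 (measure_singleton (1 : ℝ))] with s s1 s2 s3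
  rw [uIoc_of_le zero_le_one] at s3
  exact h s ⟨s3.1, lt_of_le_of_ne s3.2 s2⟩ s1

lemma polarD {Φ : ℂ → ℂ} (hΦ : IntegrableOn Φ (ball 0 1)) :
    ∫ z in ball (0 : ℂ) 1, Φ z = ∫ s in (0 : ℝ)..1, (2 * π * s) • circleAverage Φ 0 s := by
  rw [setIntegral_congr_set An_ae, polar le_rfl zero_le_one (hΦ.congr_set_ae An_ae.symm)]

lemma cj_sph {w : ℂ} {s : ℝ} (hw : w ∈ sphere (0 : ℂ) |s|) :
    w * (starRingEnd ℂ) w = (s : ℂ) ^ 2 := by
  rw [mul_conj, normSq_eq_norm_sq, mem_sphere_zero_iff_norm.1 hw, sq_abs]; simp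

lemma one_sub_ne (a : ℂ) {w : ℂ} (hw : ‖w‖ ≤ 1) : 1 - ‖a‖ ≤ ‖1 - a * w‖ := by
  have := norm_sub_norm_le 1 (a * w)
  rw [norm_one, norm_mul] at this
  nlinarith [norm_nonneg a]

lemma int_bdd {G k : ℂ → ℂ} (hG : IntegrableOn G (ball 0 1)) (hk : Measurable k) {C : ℝ}
    (hC : ∀ w ∈ ball (0 : ℂ) 1, ‖k w‖ ≤ C) : IntegrableOn (fun w => G w * k w) (ball 0 1) :=
  hG.mul_bdd hk.aestronglyMeasurable ((ae_restrict_mem measurableSet_ball).mono hC)

lemma ker_bdd {a : ℂ} (ha : ‖a‖ < 1) {w : ℂ} (hw : ‖w‖ ≤ 1) :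
    ‖((1 - a * w) ^ 2)⁻¹‖ ≤ ((1 - ‖a‖) ^ 2)⁻¹ := by
  rw [norm_inv, norm_pow]
  exact inv_anti₀ (pow_pos (sub_pos.2 ha) 2)
    (pow_le_pow_left₀ (sub_pos.2 ha).le (one_sub_ne a hw) 2)

lemma repro {G : ℂ → ℂ} (hG : DifferentiableOn ℂ G (ball 0 1)) (hi : IntegrableOn G (ball 0 1))
    {a : ℂ} (ha : ‖a‖ < 1) :
    ∫ w in ball (0 : ℂ) 1, G w * ((1 - a * (starRingEnd ℂ) w) ^ 2)⁻¹ = π * G a := by
  rw [polarD (int_bdd hi (by fun_prop) fun w hw => ker_bdd ha
    (by simpa using (mem_ball_zero_iff.1 hw).le))]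
  have hQ : DifferentiableOn ℂ (fun w => w * G w) (ball 0 1) := differentiableOn_id.mul hG
  have m : ∀ s ∈ uIcc (0 : ℝ) 1, a * (s : ℂ) ^ 2 ∈ ball (0 : ℂ) 1 := fun s hs => by
    rw [uIcc_of_le zero_le_one] at hs
    rw [mem_ball_zero_iff, norm_mul, norm_pow, norm_real, Real.norm_of_nonneg hs.1]
    nlinarith [norm_nonneg a, hs.1, hs.2, pow_le_one₀ hs.1 hs.2 (n := 2)]
  have e : ∫ s in (0 : ℝ)..1, (2 * π * s) • circleAverage
      (fun w => G w * ((1 - a * (starRingEnd ℂ) w) ^ 2)⁻¹) 0 s =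
      ∫ s in (0 : ℝ)..1, (2 * π * s : ℂ) * deriv (fun w => w * G w) (a * (s : ℂ) ^ 2) := by
    refine icongr 0 fun s hs _ => ?_
    have b : a * (s : ℂ) ^ 2 ∈ ball (0 : ℂ) s := by
      rw [mem_ball_zero_iff, norm_mul, norm_pow, norm_real, Real.norm_of_nonneg hs.1.le]
      nlinarith [norm_nonneg a, hs.1, hs.2, mul_pos hs.1 hs.1]
    rw [← two_pi_I_inv_smul_circleIntegral_sub_sq_inv_smul_of_differentiable isOpen_ball
      (closedBall_subset_ball hs.2) hQ b, circleAverage_eq_circleIntegral hs.1.ne', real_smul]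
    push_cast
    congr 2
    refine circleIntegral.integral_congr hs.1.le fun w hw => ?_
    have w0 : w ≠ 0 := ne_of_mem_sphere hw hs.1.ne'
    have w1 : w - a * (s : ℂ) ^ 2 ≠ 0 := sub_ne_zero.2 fun z => by
      rw [← z, mem_ball, mem_sphere.1 hw] at b; exact b.false
    have : 1 - a * (starRingEnd ℂ) w = (w - a * (s : ℂ) ^ 2) / w := by
      rw [← cj_sph (by rwa [abs_of_pos hs.1])]; field_simp
    simp only [this, sub_zero, smul_eq_mul]
    field_simp
  have d : ∀ s ∈ uIcc (0 : ℝ) 1, HasDerivAt (fun s : ℝ => (π : ℂ) * ((s : ℂ) ^ 2 * G (a * s ^ 2)))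
      ((2 * π * s : ℂ) * deriv (fun w => w * G w) (a * (s : ℂ) ^ 2)) s := fun s hs => by
    have g := (hG.differentiableAt (isOpen_ball.mem_nhds (m s hs))).hasDerivAt
    have p := (hasDerivAt_pow 2 (s : ℂ))
    rw [((hasDerivAt_id' _).fun_mul g).deriv]
    refine ((p.mul (g.comp (s : ℂ) (p.const_mul a))).const_mul (π : ℂ)).comp_ofReal.congr_deriv ?_
    simp only [Function.comp_apply]; push_cast; ring
  rw [e, intervalIntegral.integral_eq_sub_of_hasDerivAt d]
  · simp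
  · refine ContinuousOn.intervalIntegrable (ContinuousOn.mul (by fun_prop) ?_)
    exact (hQ.deriv isOpen_ball).continuousOn.comp (by fun_prop) m

lemma nearI (z : ℂ) (δ : ℝ) :
    ∫⁻ w in ball z δ, ENNReal.ofReal ‖w - z‖⁻¹ ≤ ENNReal.ofReal δ * ENNReal.ofReal (2 * π) := by
  rw [← lintegral_indicator measurableSet_ball, ← lintegral_add_right_eq_self _ z,
    ← Complex.lintegral_comp_polarCoord_symm]
  refine (setLIntegral_mono' polarCoord.open_target.measurableSet
    (g := (Ioo 0 δ ×ˢ Ioo (-π) π).indicator 1) fun p hp => ?_).trans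
    ((setLIntegral_le_lintegral _ _).trans (le_of_eq ?_))
  · have n : ‖Complex.polarCoord.symm p‖ = p.1 := (norm_polarCoord_symm _).trans (abs_of_pos hp.1)
    by_cases c : p.1 < δ
    · rw [indicator_of_mem (show p ∈ Ioo 0 δ ×ˢ Ioo (-π) π from ⟨⟨hp.1, c⟩, hp.2⟩),
        indicator_of_mem (by simpa only [mem_ball, dist_eq_norm, add_sub_cancel_right, n]),
        add_sub_cancel_right, n, smul_eq_mul, ← ENNReal.ofReal_mul (le_of_lt hp.1),
        mul_inv_cancel₀ (ne_of_gt hp.1)]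
      simp
    · rw [indicator_of_notMem (by simpa only [mem_ball, dist_eq_norm, add_sub_cancel_right, n])]
      simp
  · rw [lintegral_indicator_one (measurableSet_Ioo.prod measurableSet_Ioo), Measure.volume_eq_prod,
      Measure.prod_prod]
    simp [two_mul]

lemma intK {G : ℂ → ℂ} (hG : ContinuousOn G (ball 0 1)) (hi : IntegrableOn G (ball 0 1)) {l : ℂ}
    (hl : l ∈ ball (0 : ℂ) 1) : IntegrableOn (fun z => G z * (z - l)⁻¹) (ball 0 1) := by
  obtain ⟨ρ, r0, r1⟩ := Metric.nhds_basis_closedBall.mem_iff.1 (isOpen_ball.mem_nhds hl)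
  obtain ⟨C, hC⟩ := (isCompact_closedBall l ρ).exists_bound_of_continuousOn (hG.mono r1)
  have a : IntegrableOn (fun w : ℂ => ‖w - l‖⁻¹) (ball l ρ) :=
    ⟨by fun_prop, (hasFiniteIntegral_iff_ofReal (ae_of_all _ fun _ => by positivity)).2
      ((nearI l ρ).trans_lt (by finiteness))⟩
  refine Integrable.mono' ((((integrable_indicator_iff measurableSet_ball).2 a).const_mul
    C).integrableOn.add (hi.norm.mul_const ρ⁻¹)) (hi.1.mul (by fun_prop))
    (ae_of_all _ fun z => ?_)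
  rw [norm_mul, norm_inv, Pi.add_apply]
  by_cases c : z ∈ ball l ρ
  · rw [indicator_of_mem c]
    exact (mul_le_mul_of_nonneg_right (hC z (ball_subset_closedBall c)) (by positivity)).trans
      (le_add_of_nonneg_right (by positivity))
  · rw [indicator_of_notMem c, mul_zero, zero_add]
    exact mul_le_mul_of_nonneg_left (inv_anti₀ r0 (by simpa [dist_eq_norm] using c))
      (norm_nonneg _)

lemma cp {f U : ℂ → ℂ} (hU : ∀ z ∈ ball (0 : ℂ) 1, HasDerivAt U (f z) z)
    (hf : DifferentiableOn ℂ f (ball 0 1)) (hi : IntegrableOn f (ball 0 1)) {l : ℂ}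
    (hl : l ∈ ball (0 : ℂ) 1) (l0 : l ≠ 0) :
    ∫ z in ball (0 : ℂ) 1, f z * ((starRingEnd ℂ) (z - l))⁻¹ = -π * (U l - U 0) := by
  have hk : IntegrableOn (fun z => f z * ((starRingEnd ℂ) (z - l))⁻¹) (ball 0 1) :=
    (intK hf.continuousOn hi hl).norm.mono' (hi.1.mul (by fun_prop))
      (ae_of_all _ fun z => by simp only [norm_mul, norm_inv, RCLike.norm_conj, le_refl])
  have r0 := norm_pos_iff.2 l0
  have r1 := mem_ball_zero_iff.1 hl
  obtain ⟨b, hb⟩ : ∃ b, b = (starRingEnd ℂ) l := ⟨_, rfl⟩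
  have nb : ‖b‖ = ‖l‖ := hb ▸ RCLike.norm_conj l
  have b0 : b ≠ 0 := norm_pos_iff.1 (nb ▸ r0)
  have nn : ∀ s : ℝ, ‖(s : ℂ) ^ 2 / b‖ = s ^ 2 / ‖l‖ := fun s => by
    rw [norm_div, nb, norm_pow, norm_real, Real.norm_eq_abs, sq_abs]
  have av : ∀ s ∈ Ioo (0 : ℝ) 1, circleAverage (fun z => f z * ((starRingEnd ℂ) (z - l))⁻¹) 0 s =
      circleAverage (fun z => ((z - 0) / (z - s ^ 2 / b)) • (-b⁻¹ * f z)) 0 s := fun s hs =>
    circleAverage_congr_sphere fun w hw => by
      have w0 : w ≠ 0 := ne_of_mem_sphere hw (abs_pos.2 hs.1.ne').ne'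
      have : (starRingEnd ℂ) (w - l) = -b * (w - s ^ 2 / b) / w := by
        rw [← cj_sph hw, map_sub, ← hb]; field_simp; ring
      simp only [this, sub_zero, smul_eq_mul, mul_inv_rev, div_eq_mul_inv, inv_inv, inv_neg]
      ring
  have dc : ∀ s ∈ Ioo (0 : ℝ) 1, closedBall (0 : ℂ) |s| ⊆ ball 0 1 := fun s hs =>
    closedBall_subset_ball (by rw [abs_of_pos hs.1]; exact hs.2)
  have m : ∀ s ∈ uIcc (0 : ℝ) ‖l‖, (s : ℂ) ^ 2 / b ∈ ball (0 : ℂ) 1 := fun s hs => by
    rw [uIcc_of_le r0.le] at hs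
    rw [mem_ball_zero_iff, nn, div_lt_one r0]
    nlinarith [hs.1, hs.2]
  have e : ∫ s in (0 : ℝ)..1, (2 * π * s) • circleAverage
      (fun z => f z * ((starRingEnd ℂ) (z - l))⁻¹) 0 s = ∫ s in (0 : ℝ)..1,
      {s | s ≤ ‖l‖}.indicator (fun s : ℝ => (2 * π * s : ℂ) * (-b⁻¹ * f (s ^ 2 / b))) s := by
    refine icongr ‖l‖ fun s hs s1 => ?_
    have hd := (hf.const_mul (-b⁻¹)).mono (dc s hs)
    rw [av s hs]
    rcases lt_or_gt_of_ne s1 with c | c
    · rw [indicator_of_mem (show s ∈ {s | s ≤ ‖l‖} from c.le),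
        (hd.diffContOnCl_ball subset_rfl).circleAverage_smul_div, real_smul]
      · push_cast; rfl
      · rw [mem_ball_zero_iff, nn, div_lt_iff₀ r0, abs_of_pos hs.1]
        nlinarith [hs.1]
    · rw [indicator_of_notMem (show s ∉ {s | s ≤ ‖l‖} from not_le.2 c),
        (DifferentiableOn.diffContOnCl_ball (U := closedBall 0 |s|) ?_ subset_rfl).circleAverage]
      · simp
      refine ((differentiableOn_id.sub_const 0).div (differentiableOn_id.sub_const _)
        fun z hz => sub_ne_zero.2 fun q => ?_).smul hd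
      rw [mem_closedBall_zero_iff, show z = _ from q, nn, div_le_iff₀ r0, abs_of_pos hs.1] at hz
      nlinarith [hs.1]
  have d : ∀ s ∈ uIcc (0 : ℝ) ‖l‖, HasDerivAt (fun s : ℝ => -(π : ℂ) * U (s ^ 2 / b))
      ((2 * π * s : ℂ) * (-b⁻¹ * f (s ^ 2 / b))) s := fun s hs => by
    convert (((hU _ (m s hs)).comp (s : ℂ) ((hasDerivAt_pow 2 (s : ℂ)).div_const b)).const_mul
      (-(π : ℂ))).comp_ofReal using 1
    simp [div_eq_mul_inv]; ring
  rw [polarD hk, e, intervalIntegral.integral_indicator ⟨r0.le, r1.le⟩,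
    intervalIntegral.integral_eq_sub_of_hasDerivAt d]
  · rw [← cj_sph (w := l) (by simp), ← hb, mul_div_cancel_right₀ _ b0]
    simp; ring
  · exact ContinuousOn.intervalIntegrable (ContinuousOn.mul (by fun_prop)
      (continuousOn_const.mul (hf.continuousOn.comp (by fun_prop) m)))

end Pool.Agent.H.MP_435399_an
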