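import Mathlib
import Pool.Agent.H.MP_435399_an.A

namespace Pool.Agent.H.MP_435399_an

open MeasureTheory Set Filter Topology Metric Complex Real

lemma annMean {Φ : ℂ → ℂ} {a b : ℝ} (ha : 0 ≤ a) (hab : a ≤ b) {c : ℂ}
    (hΦ : ContinuousOn Φ {z | ‖z‖ ∈ Icc a b}) (hc : ∀ s ∈ Ioo a b, circleAverage Φ 0 s = c) :
    IntegrableOn Φ (An a b) ∧ ∫ z in An a b, Φ z = (π * (b ^ 2 - a ^ 2) : ℝ) * c := by
  have k : IsCompact {z : ℂ | ‖z‖ ∈ Icc a b} := (isCompact_closedBall 0 b).of_isClosed_subset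
    (isClosed_Icc.preimage continuous_norm) fun z hz => mem_closedBall_zero_iff.2 hz.2
  have i : IntegrableOn Φ (An a b) := (hΦ.integrableOn_compact k).mono_set
    fun z hz => Ioo_subset_Icc_self hz
  refine ⟨i, ?_⟩
  rw [polar ha hab i, intervalIntegral.integral_of_le hab, integral_Ioc_eq_integral_Ioo,
    setIntegral_congr_fun measurableSet_Ioo (g := fun s => (2 * π * s) • c)
      fun s hs => by simp only [hc s hs], ← integral_Ioc_eq_integral_Ioo,
    ← intervalIntegral.integral_of_le hab, intervalIntegral.integral_smul_const,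
    intervalIntegral.integral_const_mul, integral_id, real_smul]
  push_cast; ring

noncomputable def kk (l z : ℂ) : ℝ := (1 - ‖l‖ ^ 2) / (‖z - l‖ * ‖1 - (starRingEnd ℂ) l * z‖)

noncomputable def P (l z : ℂ) : ℝ := (1 - ‖l‖ ^ 2 * ‖z‖ ^ 2) / ‖1 - (starRingEnd ℂ) l * z‖ ^ 2

lemma P_nonneg {l z : ℂ} (hl : ‖l‖ ≤ 1) (hz : ‖z‖ ≤ 1) : 0 ≤ P l z :=
  div_nonneg (sub_nonneg.2 (mul_le_one₀ (pow_le_one₀ (norm_nonneg _) hl) (by positivity)
    (pow_le_one₀ (norm_nonneg _) hz))) (by positivity)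

lemma P_int {a b : ℝ} (ha : 0 ≤ a) (hab : a ≤ b) (hb : b ≤ 1) {z : ℂ} (hz : ‖z‖ < 1) :
    ∫⁻ l in An a b, ENNReal.ofReal (P l z) = ENNReal.ofReal (π * (b ^ 2 - a ^ 2)) := by
  have d : DifferentiableOn ℂ (fun l => (1 + (starRingEnd ℂ) z * l) / (1 - (starRingEnd ℂ) z * l))
      (closedBall 0 1) := DifferentiableOn.div (by fun_prop) (by fun_prop) fun l hl =>
    norm_pos_iff.1 (lt_of_lt_of_le (by simpa using hz) (one_sub_ne _ (mem_closedBall_zero_iff.1 hl)))
  obtain ⟨i, e⟩ := annMean ha hab (c := 1) (d.continuousOn.mono fun l hl =>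
    mem_closedBall_zero_iff.2 (hl.2.trans hb)) fun s hs => by
      rw [(d.diffContOnCl_ball (closedBall_subset_closedBall
        (by rw [abs_of_pos (ha.trans_lt hs.1)]; exact hs.2.le.trans hb))).circleAverage]
      simp
  have r : ∀ l, ((1 + (starRingEnd ℂ) z * l) / (1 - (starRingEnd ℂ) z * l)).re = P l z := fun l => by
    rw [P, ← RCLike.norm_conj (1 - _), ← mul_pow, ← norm_mul, ← normSq_eq_norm_sq,
      ← normSq_eq_norm_sq, div_re, ← add_div]
    congr 1
    · simp [normSq_apply]; ring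
    · simp [mul_comm]
  have := re_ofReal_mul (π * (b ^ 2 - a ^ 2)) 1
  rw [← e, ← reCLM_apply, ← reCLM.integral_comp_comm i] at this
  simp only [reCLM_apply, r, one_re, mul_one] at this
  rw [← this, ofReal_integral_eq_lintegral_ofReal ((reCLM.integrable_comp i).congr
    (ae_of_all _ r)) ((ae_restrict_mem (An_meas a b)).mono fun l hl =>
      P_nonneg (hl.2.le.trans hb) hz.le)]

noncomputable def tt (δ : ℝ) (z : ℂ) : ℝ := min 1 (4 * δ / (1 - ‖z‖ ^ 2))

lemma kk_le {δ : ℝ} (d0 : 0 < δ) {l z : ℂ} (hl : l ∈ An (1 - δ) (1 - δ / 2)) (hz : ‖z‖ < 1) :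
    kk l z ≤ tt δ z * (2 * (ball z δ).indicator (fun w => ‖w - z‖⁻¹) l + 3 * P l z) := by
  have l1 : 1 - δ < ‖l‖ := hl.1
  have l2 : ‖l‖ < 1 := by linarith [hl.2]
  have z0 := norm_nonneg z
  have l0 := norm_nonneg l
  have z2 : 0 < 1 - ‖z‖ ^ 2 := by nlinarith
  have p := P_nonneg l2.le hz.le
  have q := one_sub_ne ((starRingEnd ℂ) l) hz.le
  rw [RCLike.norm_conj] at q
  have q0 : 0 < ‖1 - (starRingEnd ℂ) l * z‖ := by linarith
  by_cases c : l ∈ ball z δ
  · have a : ‖l - z‖ < δ := mem_ball_iff_norm.1 c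
    have b := norm_sub_norm_le l z
    rw [indicator_of_mem c, tt, min_eq_left ((one_le_div z2).2 (by nlinarith)), one_mul, kk,
      norm_sub_rev z, div_mul_eq_div_div_swap, div_eq_mul_inv]
    refine le_add_of_le_of_nonneg (mul_le_mul_of_nonneg_right ?_ (by positivity)) (by positivity)
    rw [div_le_iff₀ q0]; nlinarith
  · have a : δ ≤ ‖z - l‖ := by rw [norm_sub_rev]; exact not_lt.1 (mt mem_ball_iff_norm.2 c)
    have b : ‖1 - (starRingEnd ℂ) l * z‖ ≤ 3 * ‖z - l‖ := by
      have : 1 - (starRingEnd ℂ) l * z = ((1 - ‖l‖ ^ 2 : ℝ) : ℂ) - (starRingEnd ℂ) l * (z - l) := by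
        push_cast
        rw [← cj_sph (w := l) (by simp)]; ring
      rw [this]
      refine (norm_sub_le _ _).trans ?_
      rw [norm_real, Real.norm_of_nonneg (by nlinarith), norm_mul, RCLike.norm_conj]
      nlinarith
    have e : 1 - ‖l‖ ^ 2 ≤ tt δ z * (1 - ‖l‖ ^ 2 * ‖z‖ ^ 2) := by
      have u : ‖l‖ ^ 2 ≤ 1 := by nlinarith
      have v : ‖l‖ ^ 2 * ‖z‖ ^ 2 ≤ ‖z‖ ^ 2 := by nlinarith
      rw [tt, min_mul_of_nonneg _ _ (by linarith), le_min_iff, div_mul_eq_mul_div, le_div_iff₀ z2]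
      refine ⟨by nlinarith, ?_⟩
      have : 1 - ‖l‖ ^ 2 ≤ 4 * δ := by nlinarith
      exact mul_le_mul this (by linarith) z2.le (by linarith)
    rw [indicator_of_notMem c, mul_zero, zero_add, kk, P, mul_left_comm, ← mul_div_assoc,
      ← mul_div_assoc, div_le_div_iff₀ (mul_pos (d0.trans_le a) q0) (by positivity)]
    have u : 0 ≤ 1 - ‖l‖ ^ 2 := by nlinarith
    have := mul_le_mul e (mul_le_mul_of_nonneg_right b q0.le) (by positivity) (u.trans e)
    nlinarith

lemma kk_int {δ : ℝ} (d0 : 0 < δ) (d1 : δ ≤ 1) {z : ℂ} (hz : ‖z‖ < 1) :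
    ∫⁻ l in An (1 - δ) (1 - δ / 2), ENNReal.ofReal (kk l z) ≤
      ENNReal.ofReal (tt δ z * (7 * π * δ)) := by
  have t0 : 0 ≤ tt δ z := le_min zero_le_one (div_nonneg (by positivity)
    (by nlinarith [norm_nonneg z]))
  refine (setLIntegral_mono' (An_meas _ _) (g := fun l => ENNReal.ofReal (tt δ z) *
    (2 * (ball z δ).indicator (fun w => ENNReal.ofReal ‖w - z‖⁻¹) l + 3 * ENNReal.ofReal (P l z)))
    fun l hl => ?_).trans ?_
  · refine (ENNReal.ofReal_le_ofReal (kk_le d0 hl hz)).trans ?_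
    rw [ENNReal.ofReal_mul t0]
    refine mul_le_mul_right (ENNReal.ofReal_add_le.trans (le_of_eq ?_)) _
    rw [ENNReal.ofReal_mul (by norm_num), ENNReal.ofReal_mul (by norm_num)]
    by_cases c : l ∈ ball z δ
    · simp only [indicator_of_mem c, ENNReal.ofReal_ofNat]
    · simp only [indicator_of_notMem c, ENNReal.ofReal_ofNat, ENNReal.ofReal_zero]
  rw [lintegral_const_mul' _ _ ENNReal.ofReal_ne_top, ENNReal.ofReal_mul t0,
    lintegral_add_left (Measurable.const_mul (Measurable.indicator (by fun_prop)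
      measurableSet_ball) _), lintegral_const_mul' _ _ (by norm_num),
    lintegral_const_mul' _ _ (by norm_num), P_int (by linarith) (by linarith) (by linarith) hz]
  refine mul_le_mul_right ((add_le_add (mul_le_mul_right ((setLIntegral_le_lintegral _ _).trans
    ((lintegral_indicator measurableSet_ball _).trans_le (nearI z δ))) _) le_rfl).trans ?_) _
  have := pi_pos
  rw [← ENNReal.ofReal_mul d0.le, ← ENNReal.ofReal_ofNat 2, ← ENNReal.ofReal_ofNat 3,
    ← ENNReal.ofReal_mul (by norm_num), ← ENNReal.ofReal_mul (by norm_num),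
    ← ENNReal.ofReal_add (by positivity) (mul_nonneg (by norm_num) (mul_nonneg this.le
      (by nlinarith)))]
  refine ENNReal.ofReal_le_ofReal ?_
  nlinarith [mul_pos this (mul_pos d0 d0)]

lemma key {g H : ℂ → ℂ} (hg : IntegrableOn g (ball 0 1)) (hH : DifferentiableOn ℂ H (ball 0 1))
    (hK : ∀ l ∈ ball (0 : ℂ) 1, l ≠ 0 →
      ‖H l‖ₑ ≤ ∫⁻ z in ball (0 : ℂ) 1, ‖g z‖ₑ * ENNReal.ofReal (kk l z)) {w : ℂ}
    (hw : w ∈ ball (0 : ℂ) 1) : H w = 0 := by
  have w1 := mem_ball_zero_iff.1 hw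
  have w0 := norm_nonneg w
  have t0 : ∀ δ, 0 < δ → ∀ z ∈ ball (0 : ℂ) 1, 0 ≤ tt δ z := fun δ d0 z hz =>
    le_min zero_le_one (div_nonneg (by positivity)
      (by nlinarith [norm_nonneg z, mem_ball_zero_iff.1 hz]))
  have ti : ∀ δ, 0 < δ → IntegrableOn (fun z => ‖g z‖ * tt δ z) (ball 0 1) := fun δ d0 =>
    hg.norm.mul_bdd (c := 1) (Measurable.aestronglyMeasurable (by unfold tt; fun_prop))
      ((ae_restrict_mem measurableSet_ball).mono fun z hz => by
        rw [Real.norm_of_nonneg (t0 δ d0 z hz)]; exact min_le_left _ _)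
  have a : ∀ δ, 0 < δ → δ ≤ (1 - ‖w‖) / 2 →
      ‖H w‖ * (1 - ‖w‖) ≤ 56 * ∫ z in ball (0 : ℂ) 1, ‖g z‖ * tt δ z := fun δ d0 d1 => by
    have cc : ContinuousOn (fun z => ((z - 0) / (z - w)) • ((((1 - ‖w‖) / 2 : ℝ) : ℂ) * H z))
        {z | ‖z‖ ∈ Icc (1 - δ) (1 - δ / 2)} := by
      refine ContinuousOn.fun_smul (ContinuousOn.div₀ (by fun_prop) (by fun_prop)
        fun z hz => sub_ne_zero.2 fun q => ?_)
        (continuousOn_const.mul (hH.continuousOn.mono fun z hz => mem_ball_zero_iff.2 ?_))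
      · linarith [hz.1, congrArg norm q]
      · linarith [hz.2]
    obtain ⟨-, e⟩ := annMean (by linarith) (by linarith)
      (c := (((1 - ‖w‖) / 2 : ℝ) : ℂ) * H w) cc fun s hs => by
      have s0 : |s| = s := abs_of_pos (by linarith [hs.1])
      exact ((hH.const_mul _).diffContOnCl_ball (closedBall_subset_ball
        (by linarith [hs.2]))).circleAverage_smul_div (mem_ball_zero_iff.2 (by linarith [hs.1]))
    have b := enorm_integral_le_lintegral_enorm (μ := volume.restrict (An (1 - δ) (1 - δ / 2)))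
      fun z => ((z - 0) / (z - w)) • ((((1 - ‖w‖) / 2 : ℝ) : ℂ) * H z)
    have c := (b.trans (setLIntegral_mono' (An_meas _ _) fun l hl => le_trans ?_ (hK l
      (mem_ball_zero_iff.2 (by linarith [hl.2])) (norm_pos_iff.1 (by linarith [hl.1]))))).trans_eq
      (lintegral_lintegral_swap (hg.1.enorm.comp_snd.mul
        (Measurable.aemeasurable (by unfold kk; fun_prop))))
    · have d := c.trans (setLIntegral_mono' measurableSet_ball
        (g := fun z => ENNReal.ofReal (‖g z‖ * tt δ z * (7 * π * δ))) fun z hz => by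
          rw [lintegral_const_mul' _ _ enorm_ne_top, mul_assoc,
            ENNReal.ofReal_mul (norm_nonneg _), ofReal_norm]
          exact mul_le_mul_right (kk_int d0 (by linarith) (mem_ball_zero_iff.1 hz)) _)
      have n : 0 ≤ᵐ[volume.restrict (ball (0 : ℂ) 1)] fun z => ‖g z‖ * tt δ z * (7 * π * δ) :=
        (ae_restrict_mem measurableSet_ball).mono fun z hz =>
          mul_nonneg (mul_nonneg (norm_nonneg _) (t0 δ d0 z hz)) (by positivity)
      have p := pi_pos
      rw [← ofReal_integral_eq_lintegral_ofReal ((ti δ d0).mul_const _) n, e, ← ofReal_norm,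
        ENNReal.ofReal_le_ofReal_iff (integral_nonneg_of_ae n), integral_mul_const, norm_mul,
        norm_mul, norm_real, norm_real, Real.norm_of_nonneg (by linarith : 0 ≤ (1 - ‖w‖) / 2),
        Real.norm_of_nonneg (mul_nonneg p.le (by nlinarith))] at d
      have u : π * (δ / 4) ≤ π * ((1 - δ / 2) ^ 2 - (1 - δ) ^ 2) :=
        mul_le_mul_of_nonneg_left (by nlinarith) p.le
      have v := (mul_le_mul_of_nonneg_right u (mul_nonneg (by linarith) (norm_nonneg _))).trans d
      refine le_of_mul_le_mul_left ?_ (mul_pos p d0)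
      linarith
    · rw [← ofReal_norm, ← ofReal_norm]
      refine ENNReal.ofReal_le_ofReal ?_
      have u := norm_sub_norm_le l w
      have l1 : 1 - δ < ‖l‖ := hl.1
      have l2 : ‖l‖ < 1 - δ / 2 := hl.2
      rw [smul_eq_mul, ← mul_assoc, norm_mul]
      refine mul_le_of_le_one_left (norm_nonneg _) ?_
      rw [norm_mul, norm_div, sub_zero, norm_real, Real.norm_of_nonneg (by linarith),
        div_mul_eq_mul_div, div_le_one (by linarith)]
      nlinarith
  have t1 : Tendsto (fun δ => ∫ z in ball (0 : ℂ) 1, ‖g z‖ * tt δ z) (𝓝[>] 0)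
      (𝓝 (∫ z in ball (0 : ℂ) 1, (0 : ℝ))) := by
    refine tendsto_integral_filter_of_dominated_convergence (fun z => ‖g z‖)
      (eventually_mem_nhdsWithin.mono fun δ d0 => (ti δ d0).1)
      (eventually_mem_nhdsWithin.mono fun δ d0 => (ae_restrict_mem measurableSet_ball).mono
        fun z hz => ?_) hg.norm (ae_of_all _ fun z => ?_)
    · rw [Real.norm_of_nonneg (mul_nonneg (norm_nonneg _) (t0 δ d0 z hz))]
      exact mul_le_of_le_one_right (norm_nonneg _) (min_le_left _ _)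
    · have : Continuous fun δ => ‖g z‖ * tt δ z := by unfold tt; fun_prop
      exact (this.tendsto' 0 0 (by simp [tt])).mono_left nhdsWithin_le_nhds
  have := ge_of_tendsto (t1.const_mul 56) (mem_of_superset (Ioc_mem_nhdsGT
    (show 0 < (1 - ‖w‖) / 2 by linarith)) fun δ h => a δ h.1 h.2)
  rw [integral_zero, mul_zero] at this
  exact norm_le_zero_iff.1 (by nlinarith [norm_nonneg (H w)])

end Pool.Agent.H.MP_435399_an
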