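import Mathlib
import Pool.Agent.H.MP_435399_an.B

namespace Pool.Agent.H.MP_435399_an

open MeasureTheory Set Filter Topology Metric Complex Real

noncomputable abbrev mu : Measure ℂ := volume.restrict (ball 0 1)

instance : IsFiniteMeasure mu := isFiniteMeasure_restrict.2 measure_ball_lt_top.ne

lemma aeD : ∀ᵐ z ∂mu, z ∈ ball (0 : ℂ) 1 := ae_restrict_mem measurableSet_ball

lemma tend0 {q : ℂ → ℝ} (hq : MemLp q 2 mu) {φ : ℕ → ℂ → ℂ} (hφ : ∀ j, MemLp (φ j) 2 mu)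
    (ht : Tendsto (fun j => ∫ w, ‖φ j w‖ ^ 2 ∂mu) atTop (𝓝 0)) :
    Tendsto (fun j => ∫ w, ‖q w‖ * ‖φ j w‖ ∂mu) atTop (𝓝 0) := by
  have t := ((continuousAt_rpow_const 0 (1 / 2) (Or.inr (by norm_num))).tendsto.comp ht).const_mul
    ((∫ w, ‖q w‖ ^ (2 : ℝ) ∂mu) ^ (1 / 2 : ℝ))
  rw [Real.zero_rpow (by norm_num), mul_zero] at t
  refine squeeze_zero (fun j => integral_nonneg fun w => by positivity) (fun j => ?_) t
  have := integral_mul_le_Lp_mul_Lq_of_nonneg Real.HolderConjugate.two_two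
    (ae_of_all _ fun w => norm_nonneg (q w)) (ae_of_all _ fun w => norm_nonneg (φ j w))
    (by simpa using hq.norm) (by simpa using (hφ j).norm)
  simpa only [Real.rpow_two, Function.comp_apply] using this

lemma locU {G : ℕ → ℂ → ℂ} {L : ℂ → ℂ} (hG : ∀ j, DifferentiableOn ℂ (G j) (ball 0 1))
    (h : ∀ ρ, 0 < ρ → ρ < 1 → ∃ e : ℕ → ℝ, Tendsto e atTop (𝓝 0) ∧
      ∀ j l, ‖l‖ ≤ ρ → ‖G j l - L l‖ ≤ e j) :
    DifferentiableOn ℂ L (ball 0 1) ∧
      ∀ l ∈ ball (0 : ℂ) 1, Tendsto (fun j => G j l) atTop (𝓝 (L l)) := by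
  have a : ∀ l ∈ ball (0 : ℂ) 1, ∃ ρ, l ∈ ball (0 : ℂ) ρ ∧ ρ < 1 ∧
      TendstoUniformlyOn G L atTop (ball 0 ρ) := fun l hl => by
    obtain ⟨ρ, r1, r2⟩ := exists_between (mem_ball_zero_iff.1 hl)
    obtain ⟨e, e1, e2⟩ := h ρ ((norm_nonneg _).trans_lt r1) r2
    refine ⟨ρ, mem_ball_zero_iff.2 r1, r2, Metric.tendstoUniformlyOn_iff.2 fun ε hε => ?_⟩
    filter_upwards [e1.eventually (gt_mem_nhds hε)] with j hj w hw
    rw [dist_comm, dist_eq_norm]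
    exact (e2 j w (mem_ball_zero_iff.1 hw).le).trans_lt hj
  refine ⟨fun l hl => ?_, fun l hl => ?_⟩
  · obtain ⟨ρ, r1, r2, r3⟩ := a l hl
    exact ((r3.tendstoLocallyUniformlyOn.differentiableOn (Eventually.of_forall fun j =>
      (hG j).mono (ball_subset_ball r2.le)) isOpen_ball).differentiableAt
      (isOpen_ball.mem_nhds r1)).differentiableWithinAt
  · obtain ⟨ρ, r1, -, r3⟩ := a l hl
    exact r3.tendsto_at r1

lemma nsq (x : Lp ℂ 2 mu) : ‖x‖ ^ 2 = ∫ w, ‖x w‖ ^ 2 ∂mu := by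
  rw [← inner_self_eq_norm_sq (𝕜 := ℂ), L2.inner_def, ← integral_re (L2.integrable_inner x x)]
  simp only [inner_self_eq_norm_sq]

noncomputable def ker (a w : ℂ) : ℂ := ((1 - a * w) ^ 2)⁻¹

lemma ker_diff {a : ℂ} (ha : ‖a‖ < 1) : DifferentiableOn ℂ (ker a) (ball 0 1) :=
  DifferentiableOn.inv (by fun_prop) fun w hw => pow_ne_zero _ (norm_pos_iff.1
    ((sub_pos.2 ha).trans_le (one_sub_ne a (mem_ball_zero_iff.1 hw).le)))

lemma ker_mem {a : ℂ} (ha : ‖a‖ < 1) : MemLp (ker a) 2 mu :=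
  MemLp.of_bound ((ker_diff ha).continuousOn.aestronglyMeasurable measurableSet_ball) _
    (aeD.mono fun _ hw => ker_bdd ha (mem_ball_zero_iff.1 hw).le)

lemma ker_cj (a w : ℂ) : (starRingEnd ℂ) (ker a w) =
    ((1 - (starRingEnd ℂ) a * (starRingEnd ℂ) w) ^ 2)⁻¹ := by simp [ker]

lemma anD {F : ℂ → ℂ} (hF : DifferentiableOn ℂ F (ball 0 1)) {l : ℂ} (hl : l ∈ ball (0 : ℂ) 1)
    (h : ∀ᶠ w in 𝓝 l, F w = 0) : ∀ w ∈ ball (0 : ℂ) 1, F w = 0 :=
  (hF.analyticOnNhd isOpen_ball).eqOn_zero_of_preconnected_of_eventuallyEq_zero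
    (convex_ball _ _).isPreconnected hl h

lemma exF {z : ℕ → ℂ} (hz : ∀ n, ‖z n‖ < 1) {h : ℂ → ℂ} (hd : DifferentiableOn ℂ h (ball 0 1))
    (hm : MemLp h 2 mu) {ε : ℝ} (hε : 0 < ε) (H : ∀ (s : Finset ℕ) (a : ℕ → ℂ),
      ε ≤ ∫ w, ‖h w - ∑ n ∈ s, a n * ker (z n) w‖ ^ 2 ∂mu) :
    ∃ F : ℂ → ℂ, DifferentiableOn ℂ F (ball 0 1) ∧ MemLp F 2 mu ∧
      (∀ n, F ((starRingEnd ℂ) (z n)) = 0) ∧ ¬ ∀ w ∈ ball (0 : ℂ) 1, F w = 0 := by
  let K : ℕ → Lp ℂ 2 mu := fun n => (ker_mem (hz n)).toLp _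
  have := (Submodule.span ℂ (range K)).isClosed_topologicalClosure.completeSpace_coe
  obtain ⟨y, hy, v, hv, e⟩ :=
    (Submodule.span ℂ (range K)).topologicalClosure.exists_add_mem_mem_orthogonal (hm.toLp _)
  obtain ⟨Y, Y1, Y2⟩ := mem_closure_iff_seq_limit.1 hy
  choose c hc using fun j => Finsupp.mem_span_range_iff_exists_finsupp.1 (Y1 j)
  let p : ℕ → ℂ → ℂ := fun j w => ∑ n ∈ (c j).support, c j n * ker (z n) w
  have Yp : ∀ j, Y j =ᵐ[mu] p j := fun j => by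
    rw [← hc j, Finsupp.sum]
    filter_upwards [Lp.coeFn_fun_finsetSum (c j).support fun n => c j n • K n,
      ae_all_iff.2 fun n => Lp.coeFn_smul (c j n) (K n),
      ae_all_iff.2 fun n => (ker_mem (hz n)).coeFn_toLp] with w a1 a2 a3
    rw [a1]
    exact Finset.sum_congr rfl fun n _ => by rw [a2, Pi.smul_apply, a3]; rfl
  have pd : ∀ j, DifferentiableOn ℂ (p j) (ball 0 1) := fun j =>
    DifferentiableOn.fun_sum fun n _ => (ker_diff (hz n)).const_mul _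
  have pm : ∀ j, MemLp (p j) 2 mu := fun j => (Lp.memLp (Y j)).ae_eq (Yp j)
  have t : Tendsto (fun j => ∫ w, ‖p j w - y w‖ ^ 2 ∂mu) atTop (𝓝 0) := by
    have := (tendsto_iff_norm_sub_tendsto_zero.1 Y2).pow 2
    rw [zero_pow two_ne_zero] at this
    refine this.congr fun j => (nsq _).trans (integral_congr_ae ?_)
    filter_upwards [Lp.coeFn_sub (Y j) y, Yp j] with w a1 a2
    rw [a1, Pi.sub_apply, a2]
  have p0 : (π : ℂ) ≠ 0 := ofReal_ne_zero.2 pi_ne_zero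
  obtain ⟨L, hL⟩ : ∃ L : ℂ → ℂ, ∀ a, L a = ∫ w in ball (0 : ℂ) 1,
    y w * ((1 - a * (starRingEnd ℂ) w) ^ 2)⁻¹ := ⟨_, fun _ => rfl⟩
  obtain ⟨g1, g2⟩ := locU (G := fun j a => π * p j a) (L := L) (fun j => (pd j).const_mul _)
    fun ρ r0 r1 => by
    refine ⟨_, tend0 (memLp_const ((1 - ρ) ^ 2)⁻¹) (fun j => (pm j).sub (Lp.memLp y)) t,
      fun j l hl => ?_⟩
    have b : ∀ w ∈ ball (0 : ℂ) 1, ‖((1 - l * (starRingEnd ℂ) w) ^ 2)⁻¹‖ ≤ ((1 - ρ) ^ 2)⁻¹ :=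
      fun w hw => (ker_bdd (hl.trans_lt r1) (by simpa using (mem_ball_zero_iff.1 hw).le)).trans
        (inv_anti₀ (pow_pos (sub_pos.2 r1) 2) (pow_le_pow_left₀ (sub_pos.2 r1).le (by linarith) 2))
    rw [hL, ← repro (pd j) ((pm j).integrable one_le_two) (hl.trans_lt r1), ← integral_sub
      (int_bdd ((pm j).integrable one_le_two) (by fun_prop) b)
      (int_bdd ((Lp.memLp y).integrable one_le_two) (by fun_prop) b)]
    refine norm_integral_le_of_norm_le ((((pm j).sub (Lp.memLp y)).integrable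
      one_le_two).norm.const_mul _) (aeD.mono fun w hw => ?_)
    rw [← sub_mul, norm_mul, mul_comm]
    exact mul_le_mul_of_nonneg_right ((b w hw).trans (le_abs_self _)) (norm_nonneg _)
  obtain ⟨ns, n1, n2⟩ := (tendstoInMeasure_of_tendsto_Lp Y2).exists_seq_tendsto_ae
  have Fv : v =ᵐ[mu] fun w => h w - (π : ℂ)⁻¹ * L w := by
    filter_upwards [n2, ae_all_iff.2 Yp, aeD, hm.coeFn_toLp, Lp.coeFn_add y v] with w a1 a2 a3 a4 a5
    simp only [a2] at a1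
    rw [← tendsto_nhds_unique (a1.const_mul (π : ℂ)) ((g2 w a3).comp n1.tendsto_atTop),
      inv_mul_cancel_left₀ p0, ← a4, e, a5, Pi.add_apply, add_sub_cancel_left]
  have Fd : DifferentiableOn ℂ (fun w => h w - (π : ℂ)⁻¹ * L w) (ball 0 1) :=
    hd.sub (g1.const_mul _)
  have Fm := (Lp.memLp v).ae_eq Fv
  refine ⟨_, Fd, Fm, fun n => ?_, fun q => ?_⟩
  · have := hv (K n) (Submodule.le_topologicalClosure _ (Submodule.subset_span ⟨n, rfl⟩))
    rw [L2.inner_def] at this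
    refine (mul_eq_zero.1 ((repro Fd (Fm.integrable one_le_two)
      (a := (starRingEnd ℂ) (z n)) (by simpa using hz n)).symm.trans
      ((integral_congr_ae ?_).trans this))).resolve_left p0
    filter_upwards [Fv, (ker_mem (hz n)).coeFn_toLp] with w a1 a2
    rw [RCLike.inner_apply, a1, a2, ker_cj]
  · obtain ⟨j, hj⟩ := (t.eventually (gt_mem_nhds hε)).exists
    refine absurd (H (c j).support (c j)) (not_le.2 (lt_of_eq_of_lt (integral_congr_ae ?_) hj))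
    filter_upwards [Fv, aeD, hm.coeFn_toLp, Lp.coeFn_add y v] with w a1 a3 a4 a5
    rw [norm_sub_rev, ← a4, e, a5, Pi.add_apply, a1, q w a3, add_zero]

lemma ds_bdd {F : ℂ → ℂ} (hF : DifferentiableOn ℂ F (ball 0 1)) {ρ : ℝ} (r1 : ρ < 1) :
    ∃ A B : ℝ, ∀ l, ‖l‖ ≤ ρ → ∀ z ∈ ball (0 : ℂ) 1, ‖dslope F l z‖ ≤ A * ‖F z‖ + B := by
  have s : closedBall (0 : ℂ) ((1 + ρ) / 2) ⊆ ball 0 1 := closedBall_subset_ball (by linarith)
  obtain ⟨C0, c0⟩ := (isCompact_closedBall _ _).exists_bound_of_continuousOn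
    (hF.continuousOn.mono s)
  obtain ⟨C1, c1⟩ := (isCompact_closedBall _ _).exists_bound_of_continuousOn
    ((hF.deriv isOpen_ball).continuousOn.mono s)
  have a0 : 0 < ((1 - ρ) / 2)⁻¹ := inv_pos.2 (by linarith)
  refine ⟨((1 - ρ) / 2)⁻¹, C1 + ((1 - ρ) / 2)⁻¹ * C0, fun l hl z hz => ?_⟩
  have m : l ∈ closedBall (0 : ℂ) ((1 + ρ) / 2) := mem_closedBall_zero_iff.2 (by linarith)
  have b0 := (norm_nonneg _).trans (c0 l m)
  have b1 := (norm_nonneg _).trans (c1 l m)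
  have b2 : 0 ≤ ((1 - ρ) / 2)⁻¹ * C0 := by positivity
  have b3 : 0 ≤ ((1 - ρ) / 2)⁻¹ * ‖F z‖ := by positivity
  by_cases e : z = l
  · subst e
    rw [dslope_same]
    linarith [c1 z m]
  rw [dslope_of_ne _ e, slope_def_field, norm_div]
  by_cases c : z ∈ closedBall (0 : ℂ) ((1 + ρ) / 2)
  · have := (div_le_iff₀ (norm_pos_iff.2 (sub_ne_zero.2 e))).2
      ((convex_closedBall _ _).norm_image_sub_le_of_norm_deriv_le
        (fun w hw => hF.differentiableAt (isOpen_ball.mem_nhds (s hw))) c1 m c)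
    linarith
  · have u := norm_sub_norm_le z l
    rw [mem_closedBall_zero_iff, not_le] at c
    have : ‖F z - F l‖ / ‖z - l‖ ≤ ((1 - ρ) / 2)⁻¹ * (‖F z‖ + C0) := by
      rw [div_eq_inv_mul]
      exact mul_le_mul (inv_anti₀ (by linarith) (by linarith))
        ((norm_sub_le _ _).trans (by linarith [c0 l m])) (norm_nonneg _) a0.le
    linarith

end Pool.Agent.H.MP_435399_an
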