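import Mathlib
import Pool.Agent.H.MP_435399_an.C

namespace Pool.Agent.H.MP_435399_an

open MeasureTheory Set Filter Topology Metric Complex Real

lemma cj_mem {f : ℂ → ℂ} (hf : MemLp f 2 mu) : MemLp (fun w => (starRingEnd ℂ) (f w)) 2 mu :=
  hf.of_le (continuous_conj.comp_aestronglyMeasurable hf.1) (ae_of_all _ fun w => by simp)

lemma err {z : ℕ → ℂ} (hz : ∀ n, ‖z n‖ < 1) (s : Finset ℕ) (c : ℕ → ℂ) {f G : ℂ → ℂ}
    (hf : MemLp f 2 mu) (hG : DifferentiableOn ℂ G (ball 0 1)) {q : ℂ → ℝ} (hq : MemLp q 2 mu)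
    (hb : ∀ w ∈ ball (0 : ℂ) 1, ‖G w‖ ≤ q w) :
    ‖π * ∑ n ∈ s, (starRingEnd ℂ) (c n) * G ((starRingEnd ℂ) (z n)) -
      ∫ w, G w * (starRingEnd ℂ) (f w) ∂mu‖ ≤
      ∫ w, ‖q w‖ * ‖∑ n ∈ s, c n * ker (z n) w - f w‖ ∂mu := by
  have m : MemLp G 2 mu := hq.of_le (hG.continuousOn.aestronglyMeasurable measurableSet_ball)
    (aeD.mono fun w hw => (hb w hw).trans (le_abs_self _))
  have i : ∀ n, Integrable (fun w => (starRingEnd ℂ) (c n) *
      (G w * (starRingEnd ℂ) (ker (z n) w))) mu := fun n =>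
    (m.integrable_mul (cj_mem (ker_mem (hz n)))).const_mul _
  have e : π * ∑ n ∈ s, (starRingEnd ℂ) (c n) * G ((starRingEnd ℂ) (z n)) =
      ∫ w, ∑ n ∈ s, (starRingEnd ℂ) (c n) * (G w * (starRingEnd ℂ) (ker (z n) w)) ∂mu := by
    rw [integral_finsetSum _ fun n _ => i n, Finset.mul_sum]
    refine Finset.sum_congr rfl fun n _ => ?_
    simp only [integral_const_mul, ker_cj]
    rw [repro hG (m.integrable one_le_two) (by simpa using hz n)]; ring
  have gi : Integrable (fun w => G w * (starRingEnd ℂ) (f w)) mu := m.integrable_mul (cj_mem hf)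
  rw [e, ← integral_sub (integrable_finsetSum _ fun n _ => i n) gi]
  refine norm_integral_le_of_norm_le (hq.norm.integrable_mul ((memLp_finsetSum s fun n _ =>
    (ker_mem (hz n)).const_mul (c n)).sub hf).norm) (aeD.mono fun w hw => ?_)
  rw [← RCLike.norm_conj (_ - f w), map_sub, map_sum]
  refine le_trans (le_of_eq ?_) (mul_le_mul_of_nonneg_right ((hb w hw).trans (le_abs_self _))
    (norm_nonneg _))
  rw [← norm_mul, mul_sub, Finset.mul_sum]
  simp only [map_mul, mul_left_comm]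

lemma kk_eq {l z : ℂ} (hl : ‖l‖ < 1) (hz : ‖z‖ < 1) (h : z ≠ l) :
    ‖(z - l)⁻¹ + (starRingEnd ℂ) l * (1 - (starRingEnd ℂ) l * z)⁻¹‖ = kk l z := by
  have a : 1 - (starRingEnd ℂ) l * z ≠ 0 := norm_pos_iff.1
    (lt_of_lt_of_le (by simpa using hl) (one_sub_ne _ hz.le))
  have b := sub_ne_zero.2 h
  have : (z - l)⁻¹ + (starRingEnd ℂ) l * (1 - (starRingEnd ℂ) l * z)⁻¹ =
      ((1 - ‖l‖ ^ 2 : ℝ) : ℂ) / ((z - l) * (1 - (starRingEnd ℂ) l * z)) := by
    push_cast
    rw [← cj_sph (w := l) (by simp), inv_eq_one_div (z - l), ← div_eq_mul_inv, div_add_div _ _ b a]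
    congr 1; ring
  rw [this, norm_div, norm_mul, norm_real, Real.norm_of_nonneg (by nlinarith [norm_nonneg l]), kk]

theorem main {z : ℕ → ℂ} (hz : ∀ n, ‖z n‖ < 1) {F : ℂ → ℂ} (Fd : DifferentiableOn ℂ F (ball 0 1))
    (Fm : MemLp F 2 mu) (F0 : ∀ n, F ((starRingEnd ℂ) (z n)) = 0)
    (F1 : ¬ ∀ w ∈ ball (0 : ℂ) 1, F w = 0) (S : ℕ → Finset ℕ) (c : ℕ → ℕ → ℂ) {f : ℂ → ℂ}
    (fd : DifferentiableOn ℂ f (ball 0 1)) (fm : MemLp f 2 mu)
    (ht : Tendsto (fun j => ∫ w, ‖∑ n ∈ S j, c j n * ker (z n) w - f w‖ ^ 2 ∂mu) atTop (𝓝 0))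
    {c0 : ℂ} {r : ℝ} (hr : 0 < r) (h1 : 1 < ‖c0‖)
    (hu : TendstoUniformlyOn (fun j w => ∑ n ∈ S j, c j n * ker (z n) w) (fun _ => 0) atTop
      (ball c0 r)) : ∀ w ∈ ball (0 : ℂ) 1, f w = 0 := by
  have p0 : (π : ℂ) ≠ 0 := ofReal_ne_zero.2 pi_ne_zero
  have t0 : ∀ {q : ℂ → ℝ}, MemLp q 2 mu → Tendsto (fun j => ∫ w, ‖q w‖ *
      ‖∑ n ∈ S j, c j n * ker (z n) w - f w‖ ∂mu) atTop (𝓝 0) := fun hq =>
    tend0 hq (fun j => (memLp_finsetSum (S j) fun n _ =>
      (ker_mem (hz n)).const_mul (c j n)).sub fm) ht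
  have am : ∀ n, (starRingEnd ℂ) (z n) ∈ ball (0 : ℂ) 1 := fun n => by simpa using hz n
  have dd : ∀ l ∈ ball (0 : ℂ) 1, DifferentiableOn ℂ (dslope F l) (ball 0 1) := fun l hl =>
    (differentiableOn_dslope (isOpen_ball.mem_nhds hl)).2 Fd
  have sy : ∀ a l, dslope F a l = dslope F l a := fun a l => by
    by_cases e : a = l
    · rw [e]
    · rw [dslope_of_ne _ e, dslope_of_ne _ (Ne.symm e), slope_comm]
  obtain ⟨GG, hG⟩ : ∃ GG : ℂ → ℂ, ∀ l, GG l = ∫ w, dslope F l w * (starRingEnd ℂ) (f w) ∂mu :=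
    ⟨_, fun _ => rfl⟩
  obtain ⟨g1, g2⟩ := locU (G := fun j l => π * ∑ n ∈ S j, (starRingEnd ℂ) (c j n) *
      dslope F ((starRingEnd ℂ) (z n)) l) (L := GG) (fun j => (DifferentiableOn.fun_sum fun n _ =>
      (dd _ (am n)).const_mul _).const_mul _) fun ρ _ r1 => by
    obtain ⟨A, B, h⟩ := ds_bdd Fd r1
    have m : MemLp (fun w => A * ‖F w‖ + B) 2 mu := (Fm.norm.const_mul A).add (memLp_const B)
    refine ⟨_, t0 m, fun j l hl => ?_⟩
    simp only [hG, sy _ l]
    exact err hz _ _ fm (dd l (mem_ball_zero_iff.2 (hl.trans_lt r1))) m (h l hl)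
  have c1 : c0 ≠ 0 := norm_pos_iff.1 (by linarith)
  have c2 : ((starRingEnd ℂ) c0)⁻¹ ∈ ball (0 : ℂ) 1 := by
    simpa using inv_lt_one_of_one_lt₀ h1
  have c3 : ((starRingEnd ℂ) c0)⁻¹ ≠ 0 := by simpa using c1
  have c4 : ∀ᶠ l in 𝓝 ((starRingEnd ℂ) c0)⁻¹, ((starRingEnd ℂ) l)⁻¹ ∈ ball c0 r :=
    (continuous_conj.continuousAt.inv₀ (by simpa using c1)).eventually
      (isOpen_ball.mem_nhds (by simpa using hr))
  have c5 : ∀ᶠ l in 𝓝 ((starRingEnd ℂ) c0)⁻¹, ‖((starRingEnd ℂ) c0)⁻¹‖ / 2 < ‖l‖ :=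
    continuous_norm.continuousAt.eventually (lt_mem_nhds (half_lt_self (norm_pos_iff.2 c3)))
  have k0 := half_pos (norm_pos_iff.2 c3)
  generalize ‖((starRingEnd ℂ) c0)⁻¹‖ / 2 = κ at c5 k0
  obtain ⟨l0, a1, a2⟩ := ((not_eventually.1 (mt (anD Fd c2) F1)).and_eventually
    (c4.and (c5.and (isOpen_ball.eventually_mem c2))).eventually_nhds).exists
  obtain ⟨η, e0, e1⟩ := Metric.eventually_nhds_iff_ball.1 (a2.and
    ((Fd.continuousOn.continuousAt (isOpen_ball.mem_nhds a2.self_of_nhds.2.2)).eventually_ne a1))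
  let V : ℕ → ℂ → ℂ := fun j l => ∑ n ∈ S j, (starRingEnd ℂ) (c j n) *
    (l - (starRingEnd ℂ) (z n))⁻¹
  have ne : ∀ l ∈ ball l0 η, ∀ n, l ≠ (starRingEnd ℂ) (z n) := fun l hl n e =>
    (e1 l hl).2 (e ▸ F0 n)
  have v1 : ∀ l ∈ ball l0 η, Tendsto (fun j => V j l) atTop (𝓝 ((π * F l)⁻¹ * GG l)) :=
    fun l hl => ((g2 l (e1 l hl).1.2.2).const_mul _).congr fun j => by
      have := (e1 l hl).2
      rw [Finset.mul_sum, Finset.mul_sum]
      refine Finset.sum_congr rfl fun n _ => ?_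
      rw [dslope_of_ne _ (ne l hl n), slope_def_field, F0]
      field_simp; ring
  have v2 : ∀ l ∈ ball l0 η, Tendsto (fun j => V j l - V j l0) atTop (𝓝 0) := fun l hl => by
    refine Metric.tendsto_nhds.2 fun ε hε => ?_
    filter_upwards [Metric.tendstoUniformlyOn_iff.1 hu (ε / η * κ ^ 2) (by positivity)] with j hj
    have := (convex_ball l0 η).norm_image_sub_le_of_norm_hasDerivWithin_le (f := V j) (C := ε / η)
      (f' := fun l => ∑ n ∈ S j, (starRingEnd ℂ) (c j n) * (-1 / (l - (starRingEnd ℂ) (z n)) ^ 2))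
      (fun w hw => (HasDerivAt.fun_sum fun n _ => (((hasDerivAt_id' w).sub_const _).fun_inv
        (sub_ne_zero.2 (ne w hw n))).const_mul _).hasDerivWithinAt) (fun w hw => ?_)
      (mem_ball_self e0) hl
    · rw [dist_zero_right]
      refine this.trans_lt ?_
      rw [div_mul_eq_mul_div, div_lt_iff₀ e0]
      exact mul_lt_mul_of_pos_left (mem_ball_iff_norm.1 hl) hε
    · have a := hj _ (e1 w hw).1.1
      have b := (e1 w hw).1.2.1
      have w0 : w ≠ 0 := norm_pos_iff.1 (k0.trans b)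
      have e : (starRingEnd ℂ) (∑ n ∈ S j, c j n * ker (z n) ((starRingEnd ℂ) w)⁻¹) = -w ^ 2 *
          ∑ n ∈ S j, (starRingEnd ℂ) (c j n) * (-1 / (w - (starRingEnd ℂ) (z n)) ^ 2) := by
        rw [map_sum, Finset.mul_sum]
        refine Finset.sum_congr rfl fun n _ => ?_
        have := sub_ne_zero.2 (ne w hw n)
        rw [map_mul, ker_cj, map_inv₀, conj_conj]
        field_simp
      rw [dist_comm, dist_zero_right, ← RCLike.norm_conj, e, norm_mul, norm_neg, norm_pow] at a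
      refine le_of_mul_le_mul_left (a.le.trans ?_) (pow_pos (k0.trans b) 2)
      rw [mul_comm]
      exact mul_le_mul_of_nonneg_right (pow_le_pow_left₀ k0.le b.le 2) (by positivity)
  obtain ⟨C, hC⟩ : ∃ C, C = (π * F l0)⁻¹ * GG l0 := ⟨_, rfl⟩
  have l0D := (e1 l0 (mem_ball_self e0)).1.2.2
  have gc := anD (F := fun l => GG l - π * C * F l) (g1.sub (Fd.const_mul _)) l0D
    (mem_of_superset (ball_mem_nhds l0 e0) fun l hl => by
      have a := sub_eq_zero.1 (tendsto_nhds_unique ((v1 l hl).sub (v1 l0 (mem_ball_self e0)))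
        (v2 l hl))
      have := (e1 l hl).2
      show GG l - π * C * F l = 0
      rw [hC, ← a]; field_simp; ring)
  obtain ⟨U, hU⟩ := fd.isExactOn_ball
  have gi : Integrable (fun w => F w * (starRingEnd ℂ) (f w)) mu := Fm.integrable_mul (cj_mem fm)
  have fc : ContinuousOn (fun w => (starRingEnd ℂ) (f w)) (ball 0 1) :=
    continuous_conj.comp_continuousOn fd.continuousOn
  have hk := fun w => key (g := fun w => F w * (starRingEnd ℂ) (f w))
    (H := fun l => π * F l * (U l - U 0 - (starRingEnd ℂ) C)) (w := w) gi ((Fd.const_mul _).mul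
      (((show DifferentiableOn ℂ U (ball 0 1) from fun w hw =>
        (hU w hw).differentiableAt.differentiableWithinAt).sub_const _).sub_const _))
    fun l hl l0 => by
    have l1 := mem_ball_zero_iff.1 hl
    have i1 := intK (Fd.continuousOn.fun_mul fc) gi hl
    have i2 := intK fc ((cj_mem fm).integrable one_le_two) hl
    have b : ∀ w ∈ ball (0 : ℂ) 1, 1 - ‖l‖ ≤ ‖1 - (starRingEnd ℂ) l * w‖ := fun w hw => by
      simpa using one_sub_ne ((starRingEnd ℂ) l) (mem_ball_zero_iff.1 hw).le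
    have b' : ∀ w ∈ ball (0 : ℂ) 1, ‖(starRingEnd ℂ) l * (1 - (starRingEnd ℂ) l * w)⁻¹‖ ≤
        (1 - ‖l‖)⁻¹ := fun w hw => by
      rw [norm_mul, norm_inv, RCLike.norm_conj]
      exact (mul_le_of_le_one_left (by positivity) l1.le).trans
        (inv_anti₀ (sub_pos.2 l1) (b w hw))
    have i3 := int_bdd gi (by fun_prop) b'
    have nl : ∀ᵐ w ∂mu, w ≠ l := ae_restrict_of_ae (compl_mem_ae_iff.2 (measure_singleton l))
    have x1 : ∫ w, (F w * (starRingEnd ℂ) (f w)) * (w - l)⁻¹ ∂mu -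
        F l * ∫ w, (starRingEnd ℂ) (f w) * (w - l)⁻¹ ∂mu = π * C * F l := by
      rw [← sub_eq_zero.1 (gc l hl), hG, ← integral_const_mul, ← integral_sub i1 (i2.const_mul _)]
      refine integral_congr_ae (nl.mono fun w hw => ?_)
      simp only [dslope_of_ne _ hw, slope_def_field]
      ring
    have x2 : ∫ w, (starRingEnd ℂ) (f w) * (w - l)⁻¹ ∂mu = (starRingEnd ℂ) (-π * (U l - U 0)) := by
      rw [← cp hU fd (fm.integrable one_le_two) hl l0, ← integral_conj]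
      simp only [map_mul, map_inv₀, conj_conj]
    have x3 : ∫ w, (F w * (starRingEnd ℂ) (f w)) *
        ((starRingEnd ℂ) l * (1 - (starRingEnd ℂ) l * w)⁻¹) ∂mu = 0 := by
      have m : MemLp (fun w => ‖F w‖ * (1 - ‖l‖)⁻¹) 2 mu := Fm.norm.mul_const _
      refine norm_le_zero_iff.1 (ge_of_tendsto' (t0 m) fun j => le_trans (le_of_eq ?_)
        (err hz (S j) (c j) fm (G := fun w => F w * ((starRingEnd ℂ) l *
          (1 - (starRingEnd ℂ) l * w)⁻¹)) (Fd.mul (DifferentiableOn.const_mul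
          (DifferentiableOn.inv (by fun_prop) fun w hw =>
            norm_pos_iff.1 ((sub_pos.2 l1).trans_le (b w hw))) _)) m fun w hw => ?_))
      · simp only [F0, zero_mul, mul_zero, Finset.sum_const_zero, zero_sub, norm_neg,
          mul_right_comm]
      · rw [norm_mul]
        exact mul_le_mul_of_nonneg_left (b' w hw) (norm_nonneg _)
    have x4 := enorm_integral_le_lintegral_enorm (μ := mu) fun w => (F w * (starRingEnd ℂ) (f w)) *
      (w - l)⁻¹ + (F w * (starRingEnd ℂ) (f w)) *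
        ((starRingEnd ℂ) l * (1 - (starRingEnd ℂ) l * w)⁻¹)
    rw [integral_add i1 i3, x3, add_zero, sub_eq_iff_eq_add.1 x1, x2] at x4
    refine le_trans (le_of_eq ?_) (x4.trans_eq (lintegral_congr_ae ((nl.and aeD).mono
      fun w hw => ?_)))
    · rw [← ofReal_norm, ← ofReal_norm, norm_mul _ (_ - _), ← RCLike.norm_conj (_ - _), ← norm_mul,
        ← norm_neg]
      simp only [map_sub, map_mul, map_neg, conj_conj, conj_ofReal]
      congr 2; ring
    · simp only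
      rw [← mul_add, enorm_mul, ← kk_eq l1 (mem_ball_zero_iff.1 hw.2) hw.1, ofReal_norm]
  refine anD fd l0D (mem_of_superset (ball_mem_nhds l0 e0) fun l hl => ?_)
  refine (hU l (e1 l hl).1.2.2).unique ((hasDerivAt_const l (U 0 + (starRingEnd ℂ) C)).congr_of_eventuallyEq
    (mem_of_superset (isOpen_ball.mem_nhds hl) fun w hw => ?_))
  have := (mul_eq_zero.1 (hk w (e1 w hw).1.2.2)).resolve_left (mul_ne_zero p0 (e1 w hw).2)
  show U w = _
  linear_combination this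

end Pool.Agent.H.MP_435399_an
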